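import Pool.Agent.Helper326_TP.Core

/-!
# MP_c51d14_co: Tverberg-type intersections for linear images of polytopes

For all `d`, all `r ≥ 2` and all `m ≥ (d + 1) (r - 1)`, every `m`-dimensional polytope `P` and every linear
map `f : P → ℝ^d` admit `r` pairwise disjoint faces of `P` whose images share a point. This answers Q1 in
the affirmative.

Idea of the proof. Give the label `j` a generic affine height `a j` on the affine hull of `P`, add corrections `λ j ∘ f`
(`λ j` affine on `ℝ^d`, of sum zero) and a common linear functional `s`. The fixed point theorem of Brouwer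
yields `s` and corrections that are stationary for the least value of the heights over all pairs (label, vertex),
and for which a generic interior point of `P` is a convex combination of vertices where the
second smallest height is least, or else `s` is long. The vertex sets where the height of label `j` attains the least value
span faces whose images share a point, by stationarity. If two of them shared a vertex, then the vertices
with a tie would affinely span the affine hull (excluded by the generic heights, as the space of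
the corrections has dimension at most `m`), or `s` is long (excluded by an argument on scales that uses a regularisation).
-/

set_option autoImplicit false

namespace Pool.Agent.Results.MP_c51d14_co.LinearTverberg

open Pool.Agent.Helper326_TP

/-- A polytope: the convex hull of finitely many points (at least one). -/
def IsPolytope {V : Type} [AddCommGroup V] [Module ℝ V] (P : Set V) : Prop :=
  ∃ S : Finset V, S.Nonempty ∧ P = convexHull ℝ (S : Set V)

/-- The dimension of a set: the dimension of its affine hull. -/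
noncomputable def dimSet {V : Type} [AddCommGroup V] [Module ℝ V] (P : Set V) : ℕ :=
  Module.finrank ℝ (affineSpan ℝ P).direction

/-- Linear maps on `P`: the restrictions to `P` of the affine maps from the affine hull of `P` to `W`. -/
def IsLinearOn {V W : Type} [AddCommGroup V] [Module ℝ V] [AddCommGroup W] [Module ℝ W] (P : Set V)
    (f : P → W) : Prop :=
  ∃ _ : Nonempty (affineSpan ℝ P), ∃ g : affineSpan ℝ P →ᵃ[ℝ] W,
    ∀ (x : V) (hx : x ∈ P), f ⟨x, hx⟩ = g ⟨x, subset_affineSpan ℝ P hx⟩

/-- The nonempty faces of `P`: `P` itself and the nonempty intersections of `P` with its supporting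
hyperplanes. -/
def IsFace {V : Type} [AddCommGroup V] [Module ℝ V] (P F : Set V) : Prop :=
  F.Nonempty ∧ (F = P ∨ ∃ (l : V →ₗ[ℝ] ℝ) (c : ℝ), l ≠ 0 ∧ (∀ x ∈ P, c ≤ l x) ∧
    F = {x | x ∈ P ∧ l x = c})

/-- There are `r` pairwise disjoint faces of `P` whose images under `f` share a point. -/
def HasTverbergFaces {V W : Type} [AddCommGroup V] [Module ℝ V] (r : ℕ) (P : Set V) (f : P → W) : Prop :=
  ∃ F : Fin r → Set V, (∀ j, IsFace P (F j)) ∧ (∀ i j, i ≠ j → Disjoint (F i) (F j)) ∧
    (⋂ j, f '' {x : P | (x : V) ∈ F j}).Nonempty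

/-- The points of `S`, seen from `x0`, affinely span the direction of their affine hull. -/
theorem span_top {V : Type} [NormedAddCommGroup V] [InnerProductSpace ℝ V] (S : Finset V) (x0 : V)
    (hx0 : x0 ∈ S) (W : Submodule ℝ V) (hW : vectorSpan ℝ (S : Set V) = W) (p : S → W)
    (hp : ∀ v : S, (p v : V) = (v : V) - x0) : affineSpan ℝ (Set.range p) = ⊤ := by
  classical
  have : Nonempty S := ⟨⟨x0, hx0⟩⟩
  rw [AffineSubspace.affineSpan_eq_top_iff_vectorSpan_eq_top_of_nonempty ℝ W W (Set.range_nonempty p)]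
  rw [vectorSpan_range_eq_span_range_vsub_right ℝ p ⟨x0, hx0⟩]
  apply Submodule.map_injective_of_injective W.injective_subtype
  rw [Submodule.map_subtype_top, Submodule.map_span]
  refine Eq.trans ?_ hW
  rw [vectorSpan_eq_span_vsub_set_right ℝ (show x0 ∈ (S : Set V) from hx0)]
  congr 1
  ext y
  constructor
  · rintro ⟨_, ⟨v, rfl⟩, rfl⟩
    refine ⟨v, v.2, ?_⟩
    simp [hp]
  · rintro ⟨v, hv, rfl⟩
    refine ⟨_, ⟨⟨v, hv⟩, rfl⟩, ?_⟩
    simp [hp]

/-- Affine maps commute with affine combinations. -/
theorem aff_sum {V U : Type} [AddCommGroup V] [Module ℝ V] [AddCommGroup U] [Module ℝ U] {ι : Type} [Fintype ι]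
    (f : V →ᵃ[ℝ] U) (p : ι → V) (w : ι → ℝ) (hw : ∑ v, w v = 1) :
    f (∑ v, w v • p v) = ∑ v, w v • f (p v) := by
  have h : ∀ y, f y = f.linear y + f 0 := by
    intro y
    have := f.map_vadd 0 y
    simpa using this
  rw [h, map_sum]
  simp_rw [h (p _), smul_add, Finset.sum_add_distrib, ← Finset.sum_smul, hw, one_smul, map_smul]

/-- **Tverberg's theorem for linear images of polytopes.** -/
theorem result (d r m : ℕ) (hr : 2 ≤ r) (hm : (d + 1) * (r - 1) ≤ m) (N : ℕ)
    (P : Set (EuclideanSpace ℝ (Fin N))) (hP : IsPolytope P) (hdim : dimSet P = m)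
    (f : P → EuclideanSpace ℝ (Fin d)) (hf : IsLinearOn P f) : HasTverbergFaces r P f := by
  classical
  obtain ⟨S, ⟨x0, hx0⟩, rfl⟩ := hP
  obtain ⟨hne, g, hg⟩ := hf
  have hx0P : x0 ∈ convexHull ℝ (S : Set (EuclideanSpace ℝ (Fin N))) := subset_convexHull ℝ _ hx0
  have hx0A : x0 ∈ affineSpan ℝ (convexHull ℝ (S : Set (EuclideanSpace ℝ (Fin N)))) :=
    subset_affineSpan ℝ _ hx0P
  obtain ⟨W, hW⟩ : ∃ W, W = (affineSpan ℝ (convexHull ℝ (S : Set (EuclideanSpace ℝ (Fin N))))).direction :=
    ⟨_, rfl⟩
  subst hW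
  have hmem : ∀ x ∈ convexHull ℝ (S : Set (EuclideanSpace ℝ (Fin N))),
      x - x0 ∈ (affineSpan ℝ (convexHull ℝ (S : Set (EuclideanSpace ℝ (Fin N))))).direction := fun x hx =>
    AffineSubspace.vsub_mem_direction (subset_affineSpan ℝ _ hx) hx0A
  let p : S → (affineSpan ℝ (convexHull ℝ (S : Set (EuclideanSpace ℝ (Fin N))))).direction :=
    fun v => ⟨(v : EuclideanSpace ℝ (Fin N)) - x0, hmem _ (subset_convexHull ℝ _ v.2)⟩
  have : Nonempty S := ⟨⟨x0, hx0⟩⟩
  have hp : affineSpan ℝ (Set.range p) = ⊤ := by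
    apply span_top S x0 hx0 _ _ p (fun v => rfl)
    rw [affineSpan_convexHull, direction_affineSpan]
  let f' : (affineSpan ℝ (convexHull ℝ (S : Set (EuclideanSpace ℝ (Fin N))))).direction →ᵃ[ℝ]
      EuclideanSpace ℝ (Fin d) := g.comp (AffineEquiv.vaddConst ℝ
        (⟨x0, hx0A⟩ : affineSpan ℝ (convexHull ℝ (S : Set (EuclideanSpace ℝ (Fin N)))))).toAffineMap
  obtain ⟨a, ψ, w, z, h1, h2, h3, h4, h5, h6⟩ := core p hp hr (by rw [← hdim] at hm; exact hm) f'
  have hex : ∀ j, ∃ l : EuclideanSpace ℝ (Fin N) →ₗ[ℝ] ℝ,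
      l ∘ₗ Submodule.subtype _ = (a j).linear := fun j => (a j).linear.exists_extend
  choose l hl using hex
  have key : ∀ j x (hx : x ∈ convexHull ℝ (S : Set (EuclideanSpace ℝ (Fin N)))),
      a j ⟨x - x0, hmem x hx⟩ = l j x - l j x0 + a j 0 := by
    intro j x hx
    have e1 := (a j).map_vadd 0 ⟨x - x0, hmem x hx⟩
    have e2 : (a j).linear ⟨x - x0, hmem x hx⟩ = l j (x - x0) := by rw [← hl j]; rfl
    rw [e2] at e1
    rw [map_sub] at e1
    simpa using e1
  have keyp : ∀ j (v : S), a j (p v) = l j v - l j x0 + a j 0 := fun j v =>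
    key j v (subset_convexHull ℝ _ v.2)
  let c : Fin r → ℝ := fun j => ψ + l j x0 - a j 0
  have hge : ∀ j x, x ∈ convexHull ℝ (S : Set (EuclideanSpace ℝ (Fin N))) → c j ≤ l j x := by
    intro j x hx
    have hsub : convexHull ℝ (S : Set (EuclideanSpace ℝ (Fin N))) ⊆ {y | c j ≤ l j y} := by
      apply convexHull_min
      · intro y hy
        have e1 := h1 j ⟨y, hy⟩
        rw [keyp] at e1
        show ψ + l j x0 - a j 0 ≤ l j y
        have e2 : ((⟨y, hy⟩ : S) : EuclideanSpace ℝ (Fin N)) = y := rfl
        rw [e2] at e1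
        linarith
      · exact convex_halfSpace_ge (l j).isLinear (c j)
    exact hsub hx
  let xx : Fin r → EuclideanSpace ℝ (Fin N) := fun j => ∑ v : S, w j v • (v : EuclideanSpace ℝ (Fin N))
  have hxP : ∀ j, xx j ∈ convexHull ℝ (S : Set (EuclideanSpace ℝ (Fin N))) := by
    intro j
    exact (convex_convexHull ℝ _).sum_mem (fun v _ => h2 j v) (h3 j)
      (fun v _ => subset_convexHull ℝ _ v.2)
  have hxl : ∀ j, l j (xx j) = c j := by
    intro j
    have e : ∀ v : S, w j v * l j v = w j v * c j := by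
      intro v
      by_cases h0 : w j v = 0
      · rw [h0]; ring
      · have e1 := h4 j v h0
        rw [keyp] at e1
        have : l j v = c j := by
          show _ = ψ + l j x0 - a j 0
          linarith
        rw [this]
    show l j (∑ v : S, w j v • (v : EuclideanSpace ℝ (Fin N))) = c j
    rw [map_sum]
    simp_rw [map_smul, smul_eq_mul, e, ← Finset.sum_mul, h3, one_mul]
  refine ⟨fun j => {x | x ∈ convexHull ℝ (S : Set (EuclideanSpace ℝ (Fin N))) ∧ l j x = c j}, ?_, ?_, ?_⟩
  · intro j
    refine ⟨⟨xx j, hxP j, hxl j⟩, ?_⟩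
    by_cases h0 : l j = 0
    · left
      have hc : c j = 0 := by rw [← hxl j, h0]; rfl
      ext x
      constructor
      · exact fun h => h.1
      · intro h
        exact ⟨h, by rw [hc, h0]; rfl⟩
    · right
      exact ⟨l j, c j, h0, hge j, rfl⟩
  · intro i j hij
    rw [Set.disjoint_left]
    rintro x ⟨hx, hxi⟩ ⟨_, hxj⟩
    rw [Finset.mem_convexHull'] at hx
    obtain ⟨μ, hμ0, hμ1, hμx⟩ := hx
    have hz : ∀ k, l k x = c k → ∀ y ∈ S, μ y ≠ 0 → l k y = c k := by
      intro k hk y hy hμy
      have e1 : ∑ y ∈ S, μ y * (l k y - c k) = 0 := by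
        simp_rw [mul_sub, Finset.sum_sub_distrib, ← Finset.sum_mul, hμ1, one_mul]
        rw [← hμx, map_sum] at hk
        simp_rw [map_smul, smul_eq_mul] at hk
        linarith
      have e2 := (Finset.sum_eq_zero_iff_of_nonneg (fun y hy => mul_nonneg (hμ0 y hy)
        (sub_nonneg.mpr (hge k y (subset_convexHull ℝ _ hy))))).mp e1 y hy
      rcases mul_eq_zero.mp e2 with h | h
      · exact absurd h hμy
      · linarith
    have hex : ∃ y ∈ S, μ y ≠ 0 := by
      by_contra hcon
      push Not at hcon
      rw [Finset.sum_eq_zero hcon] at hμ1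
      exact zero_ne_one hμ1
    obtain ⟨y, hy, hμy⟩ := hex
    have ei := hz i hxi y hy hμy
    have ej := hz j hxj y hy hμy
    refine h5 ⟨y, hy⟩ i j hij ⟨?_, ?_⟩
    · rw [keyp]
      show l i y - l i x0 + a i 0 = ψ
      rw [ei]
      show ψ + l i x0 - a i 0 - l i x0 + a i 0 = ψ
      ring
    · rw [keyp]
      show l j y - l j x0 + a j 0 = ψ
      rw [ej]
      show ψ + l j x0 - a j 0 - l j x0 + a j 0 = ψ
      ring
  · refine ⟨z, ?_⟩
    rw [Set.mem_iInter]
    intro j
    refine ⟨⟨xx j, hxP j⟩, ⟨hxP j, hxl j⟩, ?_⟩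
    rw [hg, ← h6 j, ← aff_sum f' p (w j) (h3 j)]
    show g _ = g _
    congr 1
    apply Subtype.ext
    show xx j = ((∑ v, w j v • p v : (affineSpan ℝ (convexHull ℝ (S : Set (EuclideanSpace ℝ (Fin N))))).direction) :
      EuclideanSpace ℝ (Fin N)) + x0
    rw [Submodule.coe_sum]
    have e : ∀ v : S, ((w j v • p v : (affineSpan ℝ (convexHull ℝ (S : Set (EuclideanSpace ℝ (Fin N))))).direction) :
      EuclideanSpace ℝ (Fin N)) = w j v • (v : EuclideanSpace ℝ (Fin N)) - w j v • x0 := by
      intro v
      rw [Submodule.coe_smul, ← smul_sub]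
    simp_rw [e, Finset.sum_sub_distrib, ← Finset.sum_smul, h3, one_smul]
    simp [xx]

end Pool.Agent.Results.MP_c51d14_co.LinearTverberg
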